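import Pool.Agent.Q4.ZI.Stm

/-!
# Project ZI: fixed points of finite `p`-groups on triangulated spaces
-/

namespace Q4.ZI

open Finset

theorem card_zero {p : ℕ} [Fact p.Prime] {A : Type} [Group A] (hA : IsPGroup p A)
    {X : Type} [DecidableEq X] [MulAction A X] (K : Finset X)
    (hinv : ∀ (g : A), ∀ s ∈ K, g • s ∈ K) (hfix : ∀ s ∈ K, ∃ g : A, g • s ≠ s) :
    (p : ℤ) ∣ (K.card : ℤ) := by
  classical
  let act : MulAction A {s // s ∈ K} :=
    { smul := fun g s => ⟨g • s.1, hinv g s.1 s.2⟩
      one_smul := fun s => Subtype.ext (one_smul A s.1)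
      mul_smul := fun g h s => Subtype.ext (mul_smul g h s.1) }
  have h := hA.card_modEq_card_fixedPoints {s // s ∈ K}
  have h0 : Nat.card (MulAction.fixedPoints A {s // s ∈ K}) = 0 := by
    rw [Nat.card_eq_zero]
    left
    refine ⟨fun s => ?_⟩
    obtain ⟨g, hg⟩ := hfix s.1.1 s.1.2
    exact hg (congrArg Subtype.val (s.2 g))
  rw [h0, Nat.modEq_zero_iff_dvd] at h
  have hc : Nat.card {s // s ∈ K} = K.card := by simp
  rw [hc] at h
  exact_mod_cast h

theorem tEul : SEul := by
  intro p _ A _ _ M _ _ hA T hT
  letI := T.fin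
  letI := T.dec
  letI := T.act
  letI actF : MulAction A (Finset T.V) :=
    { smul := fun g s => s.image fun v => g • v
      one_smul := fun s => by
        change s.image (fun v => (1 : A) • v) = s
        simp
      mul_smul := fun g h s => by
        change s.image (fun v => (g * h) • v) = (s.image fun v => h • v).image fun v => g • v
        rw [Finset.image_image]
        congr 1
        funext v
        exact mul_smul g h v }
  have hsm : ∀ (g : A) (s : Finset T.V), g • s = s.image fun v => g • v := fun _ _ => rfl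
  have hinv : ∀ (g : A), ∀ s ∈ T.K, g • s ∈ T.K := by
    intro g s hs
    exact T.inv g s hs
  have hcard : ∀ (g : A) (s : Finset T.V), (g • s).card = s.card := by
    intro g s
    rw [hsm]
    exact Finset.card_image_of_injective s (MulAction.injective g)
  by_cases hfix : ∃ s ∈ T.K, ∀ g : A, g • s = s
  · obtain ⟨s, hs, hsf⟩ := hfix
    have hne := T.nonempty s hs
    have hpos : (0 : ℝ) < s.card := by exact_mod_cast hne.card_pos
    let w : T.V → ℝ := fun v => if v ∈ s then (s.card : ℝ)⁻¹ else 0
    have hw0 : ∀ v, 0 ≤ w v := by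
      intro v
      simp only [w]
      split_ifs
      · positivity
      · exact le_rfl
    have hw1 : ∑ v, w v = 1 := by
      simp only [w]
      rw [Finset.sum_ite_mem, Finset.univ_inter, Finset.sum_const, nsmul_eq_mul,
        mul_inv_cancel₀ hpos.ne']
    have hws : Finset.univ.filter (fun v => w v ≠ 0) = s := by
      ext v
      simp only [Finset.mem_filter, Finset.mem_univ, true_and, w]
      constructor
      · intro h
        by_contra hv
        rw [if_neg hv] at h
        exact h rfl
      · intro h
        rw [if_pos h]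
        exact inv_ne_zero hpos.ne'
    have hws' : Finset.univ.filter (fun v => w v ≠ 0) ∈ T.K := by rw [hws]; exact hs
    refine ⟨T.e ⟨w, hw0, hw1, hws'⟩, fun g => ?_⟩
    refine (T.equiv g ⟨w, hw0, hw1, hws'⟩ ⟨w, hw0, hw1, hws'⟩ fun v => ?_).symm
    have hgv : g • v ∈ s ↔ v ∈ s := by
      have h1 := hsf g
      rw [hsm] at h1
      constructor
      · intro h
        rw [← h1, Finset.mem_image] at h
        obtain ⟨v', hv', e⟩ := h
        rw [← MulAction.injective g e]
        exact hv'
      · intro h
        rw [← h1]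
        exact Finset.mem_image_of_mem _ h
    change (if g • v ∈ s then (s.card : ℝ)⁻¹ else 0) = if v ∈ s then (s.card : ℝ)⁻¹ else 0
    by_cases hv : v ∈ s
    · rw [if_pos hv, if_pos (hgv.2 hv)]
    · rw [if_neg hv, if_neg fun h => hv (hgv.1 h)]
  · exfalso
    push Not at hfix
    apply hT
    have hchi : T.chi = ((T.K.filter fun s => Odd s.card).card : ℤ) -
        ((T.K.filter fun s => ¬ Odd s.card).card : ℤ) := by
      unfold Tri.chi
      rw [← Finset.sum_filter_add_sum_filter_not T.K fun s => Odd s.card]
      have e1 : ∑ s ∈ T.K.filter fun s => Odd s.card, (-1 : ℤ) ^ (s.card + 1) =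
          ∑ s ∈ T.K.filter fun s => Odd s.card, (1 : ℤ) := by
        refine Finset.sum_congr rfl fun s hs => ?_
        rw [Finset.mem_filter] at hs
        exact (Odd.add_one hs.2).neg_one_pow
      have e2 : ∑ s ∈ T.K.filter fun s => ¬ Odd s.card, (-1 : ℤ) ^ (s.card + 1) =
          ∑ s ∈ T.K.filter fun s => ¬ Odd s.card, (-1 : ℤ) := by
        refine Finset.sum_congr rfl fun s hs => ?_
        rw [Finset.mem_filter, Nat.not_odd_iff_even] at hs
        exact (Even.add_one hs.2).neg_one_pow
      rw [e1, e2]
      simp only [Finset.sum_const, nsmul_eq_mul, mul_one, mul_neg]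
      ring
    rw [hchi]
    refine dvd_sub (card_zero hA _ ?_ ?_) (card_zero hA _ ?_ ?_)
    · intro g s hs
      rw [Finset.mem_filter] at hs ⊢
      exact ⟨hinv g s hs.1, by rw [hcard]; exact hs.2⟩
    · intro s hs
      exact hfix s (Finset.mem_of_mem_filter s hs)
    · intro g s hs
      rw [Finset.mem_filter] at hs ⊢
      exact ⟨hinv g s hs.1, by rw [hcard]; exact hs.2⟩
    · intro s hs
      exact hfix s (Finset.mem_of_mem_filter s hs)

end Q4.ZI
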