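import Pool.Agent.Q4.ZI.Stm

/-!
# Project ZI, job LOC: isotropy representations of finite groups of `C^1` diffeomorphisms

Part of the code follows Pool/Agent/Q24/SLN/Smooth.lean (helper24).
-/

open Filter Topology
open scoped Manifold ContDiff

namespace Q4.ZI

section

variable {E : Type} [NormedAddCommGroup E] [NormedSpace ℝ E] [FiniteDimensional ℝ E]
  {M : Type} [TopologicalSpace M] [ChartedSpace E M]
  {A : Type} [Group A] [MulAction A M]

/-- the action in the chart at `p` -/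
noncomputable def ac (E : Type) [NormedAddCommGroup E] [NormedSpace ℝ E] {M : Type}
    [TopologicalSpace M] [ChartedSpace E M] {A : Type} [Group A] [MulAction A M]
    (p : M) (g : A) (y : E) : E :=
  extChartAt 𝓘(ℝ, E) p (g • (extChartAt 𝓘(ℝ, E) p).symm y)

omit [FiniteDimensional ℝ E] in
theorem ac_basic (p : M) (hcont : ∀ g : A, Continuous fun x : M => g • x) :
    (∀ g : A, g • p = p → ac E p g (extChartAt 𝓘(ℝ, E) p p) = extChartAt 𝓘(ℝ, E) p p) ∧
    (∀ᶠ y in 𝓝 (extChartAt 𝓘(ℝ, E) p p), ac E p (1 : A) y = y) ∧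
    (∀ g h : A, h • p = p → ∀ᶠ y in 𝓝 (extChartAt 𝓘(ℝ, E) p p),
      ac E p (g * h) y = ac E p g (ac E p h y)) := by
  have hsymm : (extChartAt 𝓘(ℝ, E) p).symm (extChartAt 𝓘(ℝ, E) p p) = p :=
    extChartAt_to_inv (I := 𝓘(ℝ, E)) p
  have hcs : ContinuousAt (extChartAt 𝓘(ℝ, E) p).symm (extChartAt 𝓘(ℝ, E) p p) :=
    continuousAt_extChartAt_symm (I := 𝓘(ℝ, E)) p
  have htgt : (extChartAt 𝓘(ℝ, E) p).target ∈ 𝓝 (extChartAt 𝓘(ℝ, E) p p) :=
    extChartAt_target_mem_nhds (I := 𝓘(ℝ, E)) p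
  have hsrc : (extChartAt 𝓘(ℝ, E) p).source ∈ 𝓝 p := extChartAt_source_mem_nhds (I := 𝓘(ℝ, E)) p
  refine ⟨fun g hg => ?_, ?_, fun g h hh => ?_⟩
  · unfold ac
    rw [hsymm, hg]
  · filter_upwards [htgt] with y hy
    unfold ac
    rw [one_smul]
    exact (extChartAt 𝓘(ℝ, E) p).right_inv hy
  · have h1 : Tendsto (fun y => h • (extChartAt 𝓘(ℝ, E) p).symm y)
        (𝓝 (extChartAt 𝓘(ℝ, E) p p)) (𝓝 p) := by
      have h2 : Tendsto (fun y => h • (extChartAt 𝓘(ℝ, E) p).symm y)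
          (𝓝 (extChartAt 𝓘(ℝ, E) p p))
          (𝓝 (h • (extChartAt 𝓘(ℝ, E) p).symm (extChartAt 𝓘(ℝ, E) p p))) :=
        ((hcont h).tendsto _).comp hcs
      rwa [hsymm, hh] at h2
    filter_upwards [h1 hsrc] with y hy
    unfold ac
    rw [(extChartAt 𝓘(ℝ, E) p).left_inv hy, mul_smul]

omit [FiniteDimensional ℝ E] in
theorem ac_contDiffAt (p : M)
    (hsm : ∀ g : A, ContMDiff 𝓘(ℝ, E) 𝓘(ℝ, E) 1 (fun x : M => g • x)) (g : A) (hg : g • p = p) :
    ContDiffAt ℝ 1 (ac E p g) (extChartAt 𝓘(ℝ, E) p p) := by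
  have h1 := (contMDiffAt_iff (x := p)).1 ((hsm g).contMDiffAt (x := p))
  have h2 := h1.2
  rw [hg] at h2
  simp only [modelWithCornersSelf_coe, Set.range_id] at h2
  rw [contDiffWithinAt_univ] at h2
  exact h2

/-- an element of finite order whose derivative at a fixed point is the identity -/
theorem loc1 (p : M) (hsm : ∀ g : A, ContMDiff 𝓘(ℝ, E) 𝓘(ℝ, E) 1 (fun x : M => g • x))
    (g : A) (hfin : IsOfFinOrder g) (hp : g • p = p)
    (hD : fderiv ℝ (ac E p g) (extChartAt 𝓘(ℝ, E) p p) = ContinuousLinearMap.id ℝ E) :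
    ∀ᶠ x in 𝓝 p, g • x = x := by
  have hcont : ∀ g : A, Continuous fun x : M => g • x := fun g => (hsm g).continuous
  obtain ⟨hfix, hone, hmul⟩ := ac_basic (E := E) p hcont
  set q := extChartAt 𝓘(ℝ, E) p p with hqd
  have hpk : ∀ k : ℕ, g ^ k • p = p := by
    intro k
    induction k with
    | zero => rw [pow_zero, one_smul]
    | succ k ih => rw [pow_succ, mul_smul, hp, ih]
  have h1 : HasStrictFDerivAt (ac E p g) (ContinuousLinearMap.id ℝ E) q := by
    rw [← hD]
    exact (ac_contDiffAt p hsm g hp).hasStrictFDerivAt one_ne_zero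
  have hk : ∀ k : ℕ, HasStrictFDerivAt (ac E p (g ^ k)) (ContinuousLinearMap.id ℝ E) q := by
    intro k
    induction k with
    | zero =>
      rw [pow_zero]
      refine (hasStrictFDerivAt_id q).congr_of_eventuallyEq ?_
      filter_upwards [hone] with y hy
      exact hy.symm
    | succ k ih =>
      rw [pow_succ]
      have h2 : HasStrictFDerivAt (ac E p (g ^ k)) (ContinuousLinearMap.id ℝ E) (ac E p g q) := by
        rw [hfix g hp]
        exact ih
      have h3 := h2.comp q h1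
      rw [ContinuousLinearMap.id_comp] at h3
      refine h3.congr_of_eventuallyEq ?_
      filter_upwards [hmul (g ^ k) g hp] with y hy
      exact hy.symm
  obtain ⟨N, hN, hgN⟩ := isOfFinOrder_iff_pow_eq_one.1 hfin
  let Ψ : E → E := fun y => ∑ k ∈ Finset.range N, ac E p (g ^ k) y
  have hN0 : (N : ℝ) ≠ 0 := Nat.cast_ne_zero.2 hN.ne'
  let e : E ≃L[ℝ] E := ContinuousLinearEquiv.smulLeft (Units.mk0 (N : ℝ) hN0)
  have hΨ : HasStrictFDerivAt Ψ (e : E →L[ℝ] E) q := by
    have h2 : HasStrictFDerivAt Ψ (∑ k ∈ Finset.range N, ContinuousLinearMap.id ℝ E) q :=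
      HasStrictFDerivAt.fun_sum fun k _ => hk k
    convert h2 using 1
    ext v
    rw [Finset.sum_const, Finset.card_range]
    simp [e, Nat.cast_smul_eq_nsmul]
  have hinv : ∀ᶠ y in 𝓝 q, Ψ (ac E p g y) = Ψ y := by
    have h2 : ∀ᶠ y in 𝓝 q, ∀ k ∈ Finset.range N, ac E p (g ^ k * g) y =
        ac E p (g ^ k) (ac E p g y) :=
      (Filter.eventually_all_finset _).2 fun k _ => hmul (g ^ k) g hp
    filter_upwards [h2] with y hy
    have h3 : Ψ (ac E p g y) = ∑ k ∈ Finset.range N, ac E p (g ^ (k + 1)) y := by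
      refine Finset.sum_congr rfl fun k hk' => ?_
      rw [pow_succ, hy k hk']
    rw [h3]
    have h4 := Finset.sum_range_succ' (fun k => ac E p (g ^ k) y) N
    have h5 := Finset.sum_range_succ (fun k => ac E p (g ^ k) y) N
    rw [h5] at h4
    simp only [hgN, pow_zero] at h4
    exact (add_right_cancel h4).symm
  have hloc := hΨ.eventually_left_inverse
  have hct : Tendsto (ac E p g) (𝓝 q) (𝓝 q) := by
    have := h1.continuousAt.tendsto
    rwa [hfix g hp] at this
  have key : ∀ᶠ y in 𝓝 q, ac E p g y = y := by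
    filter_upwards [hinv, hloc, hct.eventually hloc] with y hy1 hy2 hy3
    rw [← hy3, hy1, hy2]
  have hc : ContinuousAt (extChartAt 𝓘(ℝ, E) p) p := continuousAt_extChartAt (I := 𝓘(ℝ, E)) p
  have hsrc : (extChartAt 𝓘(ℝ, E) p).source ∈ 𝓝 p := extChartAt_source_mem_nhds (I := 𝓘(ℝ, E)) p
  have h2 : ∀ᶠ x in 𝓝 p, g • x ∈ (extChartAt 𝓘(ℝ, E) p).source := by
    have h3 : Tendsto (fun x : M => g • x) (𝓝 p) (𝓝 p) := by
      have := (hcont g).tendsto p
      rwa [hp] at this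
    exact h3 hsrc
  filter_upwards [hc.eventually key, h2, hsrc] with x hx1 hx2 hx3
  unfold ac at hx1
  rw [(extChartAt 𝓘(ℝ, E) p).left_inv hx3] at hx1
  exact (extChartAt 𝓘(ℝ, E) p).injOn hx2 hx3 hx1

/-- an element of finite order which is the identity near a point is the identity -/
theorem loc2 [T2Space M] [ConnectedSpace M]
    (hsm : ∀ g : A, ContMDiff 𝓘(ℝ, E) 𝓘(ℝ, E) 1 (fun x : M => g • x))
    (g : A) (hfin : IsOfFinOrder g) (p : M) (hp : ∀ᶠ x in 𝓝 p, g • x = x) (y : M) :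
    g • y = y := by
  have hcont : ∀ g : A, Continuous fun x : M => g • x := fun g => (hsm g).continuous
  let Z : Set M := {y | ∀ᶠ x in 𝓝 y, g • x = x}
  have hopen : IsOpen Z := by
    rw [isOpen_iff_mem_nhds]
    intro y hy
    exact hy.eventually_nhds
  have hclosed : IsClosed Z := by
    refine isClosed_of_closure_subset fun z hz => ?_
    have hzf : g • z = z := by
      have h1 : IsClosed {y : M | g • y = y} := isClosed_eq (hcont g) continuous_id
      exact closure_minimal (fun y hy => hy.self_of_nhds) h1 hz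
    refine loc1 z hsm g hfin hzf ?_
    by_contra hne
    have hcd := ac_contDiffAt z hsm g hzf
    have hcf : ContinuousAt (fderiv ℝ (ac E z g)) (extChartAt 𝓘(ℝ, E) z z) :=
      hcd.continuousAt_fderiv one_ne_zero
    have hc : ContinuousAt (extChartAt 𝓘(ℝ, E) z) z := continuousAt_extChartAt (I := 𝓘(ℝ, E)) z
    have h1 : ∀ᶠ y in 𝓝 z, fderiv ℝ (ac E z g) (extChartAt 𝓘(ℝ, E) z y) ≠
        ContinuousLinearMap.id ℝ E :=
      hc.eventually (hcf.eventually_ne hne)
    have hsrc : (extChartAt 𝓘(ℝ, E) z).source ∈ 𝓝 z := extChartAt_source_mem_nhds (I := 𝓘(ℝ, E)) z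
    have h2 : ∃ᶠ y in 𝓝 z, y ∈ Z := mem_closure_iff_frequently.1 hz
    obtain ⟨y, hyZ, hy1, hy2⟩ := (h2.and_eventually (h1.and hsrc)).exists
    apply hy1
    have h3 : ac E z g =ᶠ[𝓝 (extChartAt 𝓘(ℝ, E) z y)] id := by
      have hcs : ContinuousAt (extChartAt 𝓘(ℝ, E) z).symm (extChartAt 𝓘(ℝ, E) z y) :=
        continuousAt_extChartAt_symm' (I := 𝓘(ℝ, E)) hy2
      have h4 : ∀ᶠ w in 𝓝 (extChartAt 𝓘(ℝ, E) z y),
          g • (extChartAt 𝓘(ℝ, E) z).symm w = (extChartAt 𝓘(ℝ, E) z).symm w := by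
        have h6 : ∀ᶠ x in 𝓝 ((extChartAt 𝓘(ℝ, E) z).symm (extChartAt 𝓘(ℝ, E) z y)),
            g • x = x := by
          rw [(extChartAt 𝓘(ℝ, E) z).left_inv hy2]
          exact hyZ
        exact hcs.eventually h6
      have h5 : (extChartAt 𝓘(ℝ, E) z).target ∈ 𝓝 (extChartAt 𝓘(ℝ, E) z y) :=
        extChartAt_target_mem_nhds' (I := 𝓘(ℝ, E)) ((extChartAt 𝓘(ℝ, E) z).map_source hy2)
      filter_upwards [h4, h5] with w hw1 hw2
      unfold ac
      rw [hw1]
      exact (extChartAt 𝓘(ℝ, E) z).right_inv hw2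
    rw [h3.fderiv_eq, fderiv_id]
  have huniv : Z = Set.univ := IsClopen.eq_univ ⟨hclosed, hopen⟩ ⟨p, hp⟩
  have hy : y ∈ Z := by rw [huniv]; trivial
  exact hy.self_of_nhds

end

theorem tLoc : SLoc := by
  intro E M _ _ _ _ _ _ _ _ A _ _ _ hsm p hp
  have hcont : ∀ g : A, Continuous fun x : M => g • x := fun g => (hsm g).continuous
  obtain ⟨hfix, hone, hmul⟩ := ac_basic (E := E) (A := A) p hcont
  set q := extChartAt 𝓘(ℝ, E) p p with hqd
  have hstr : ∀ g : A, HasStrictFDerivAt (ac E p g) (fderiv ℝ (ac E p g) q) q := fun g =>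
    (ac_contDiffAt p hsm g (hp g)).hasStrictFDerivAt one_ne_zero
  let D : A →* (E →ₗ[ℝ] E) :=
    { toFun := fun g => (fderiv ℝ (ac E p g) q : E →ₗ[ℝ] E)
      map_one' := by
        have h1 : fderiv ℝ (ac E p (1 : A)) q = ContinuousLinearMap.id ℝ E := by
          have h2 : (ac E p (1 : A)) =ᶠ[𝓝 q] id := hone
          rw [h2.fderiv_eq, fderiv_id]
        rw [h1]; rfl
      map_mul' := fun g h => by
        have h1 : fderiv ℝ (ac E p (g * h)) q =
            (fderiv ℝ (ac E p g) q).comp (fderiv ℝ (ac E p h) q) := by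
          have h2 : (ac E p (g * h)) =ᶠ[𝓝 q] (ac E p g ∘ ac E p h) := hmul g h (hp h)
          rw [h2.fderiv_eq]
          have h3 : HasFDerivAt (ac E p g) (fderiv ℝ (ac E p g) q) (ac E p h q) := by
            rw [hfix h (hp h)]; exact (hstr g).hasFDerivAt
          exact (h3.comp q (hstr h).hasFDerivAt).fderiv
        rw [h1]; rfl }
  refine ⟨D, fun g hg y => ?_⟩
  have h1 : fderiv ℝ (ac E p g) q = ContinuousLinearMap.id ℝ E := by
    ext v
    exact LinearMap.congr_fun hg v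
  exact loc2 hsm g (isOfFinOrder_of_finite g) p
    (loc1 p hsm g (isOfFinOrder_of_finite g) (hp g) h1) y

end Q4.ZI
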