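import Pool.Agent.Q4.ZI.Dec

/-!
# Project ZI, job FIN: normal subgroups of `E_n(O)` of finite index
-/

open NumberField Matrix
open scoped commutatorElement

namespace Q4.ZI

section

variable {R : Type} [CommRing R] {n : ℕ}

/-- the elementary matrix as an element of `En` -/
def te (i j : Fin n) (h : i ≠ j) (c : R) : En R n := ⟨tv i j h c, tv_mem_En i j h c⟩

theorem te_inv (i j : Fin n) (h : i ≠ j) (c : R) : (te i j h c)⁻¹ = te i j h (-c) :=
  Subtype.ext (tv_inv i j h c)

theorem te_comm (i l j : Fin n) (hil : i ≠ l) (hlj : l ≠ j) (hij : i ≠ j) (a b : R) :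
    te i j hij (a * b) = te i l hil a * te l j hlj b * (te i l hil a)⁻¹ * (te l j hlj b)⁻¹ :=
  Subtype.ext (tv_comm i l j hil hlj hij a b)

/-- generation by the elementary matrices -/
theorem closure_te (H : Subgroup (En R n)) (h : ∀ i j hij c, te i j hij c ∈ H) : H = ⊤ := by
  rw [eq_top_iff]
  rintro ⟨x, hx⟩ -
  unfold En at hx
  refine Subgroup.closure_induction (p := fun x hx => (⟨x, hx⟩ : En R n) ∈ H) ?_ ?_ ?_ ?_ hx
  · rintro x ⟨i, j, c, hij, hxe⟩
    have e : (⟨x, Subgroup.subset_closure ⟨i, j, c, hij, hxe⟩⟩ : En R n) = te i j hij c :=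
      Subtype.ext (Units.ext hxe)
    rw [e]
    exact h i j hij c
  · exact H.one_mem
  · intro x y hx hy h1 h2
    exact H.mul_mem h1 h2
  · intro x hx h1
    exact H.inv_mem h1

theorem EE_le_En (a : R) : EE R n a ≤ En R n := by
  unfold EE
  rw [Subgroup.closure_le]
  rintro x ⟨h, i, j, b, hh, hij, hxe⟩
  have e2 : x = h * tv i j hij (a * b) * h⁻¹ := by
    apply Units.ext
    rw [hxe, Units.val_mul, Units.val_mul, tv_val]
  rw [e2]
  exact Subgroup.mul_mem _ (Subgroup.mul_mem _ hh (tv_mem_En i j hij _)) (Subgroup.inv_mem _ hh)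

/-- generation by the elementary matrices in the first row and column -/
theorem closure_te0 {m : ℕ} (H : Subgroup (En R (m + 3)))
    (h1 : ∀ (j : Fin (m + 3)) (hj : 0 ≠ j) c, te 0 j hj c ∈ H)
    (h2 : ∀ (j : Fin (m + 3)) (hj : j ≠ 0) c, te j 0 hj c ∈ H) : H = ⊤ := by
  refine closure_te H fun i j hij c => ?_
  by_cases hi : 0 = i
  · subst hi
    exact h1 j hij c
  by_cases hj : j = 0
  · subst hj
    exact h2 i hij c
  have e := te_comm i 0 j (Ne.symm hi) (Ne.symm hj) hij c 1
  rw [mul_one] at e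
  rw [e]
  exact H.mul_mem (H.mul_mem (H.mul_mem (h2 i _ c) (h1 j _ 1)) (H.inv_mem (h2 i _ c)))
    (H.inv_mem (h1 j _ 1))

theorem third {m : ℕ} (i j : Fin (m + 3)) : ∃ k : Fin (m + 3), i ≠ k ∧ k ≠ j := by
  have h : ({i, j} : Finset (Fin (m + 3))).card < (Finset.univ : Finset (Fin (m + 3))).card := by
    rw [Finset.card_univ, Fintype.card_fin]
    exact (Finset.card_le_two).trans_lt (by omega)
  obtain ⟨k, -, hk⟩ := Finset.exists_mem_notMem_of_card_lt_card h
  simp only [Finset.mem_insert, Finset.mem_singleton, not_or] at hk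
  exact ⟨k, Ne.symm hk.1, hk.2⟩

theorem perfect {m : ℕ} : commutator (En R (m + 3)) = ⊤ := by
  refine closure_te _ fun i j hij c => ?_
  obtain ⟨k, hik, hkj⟩ := third i j
  have e := te_comm i k j hik hkj hij c 1
  rw [mul_one] at e
  rw [e]
  exact Subgroup.commutator_mem_commutator (Subgroup.mem_top _) (Subgroup.mem_top _)

/-- commutators of block matrices with elementary matrices of the first row -/
theorem blk_row {m : ℕ} {a : R} (g : GL (Fin (m + 3)) R) (hg : g ∈ Cg a (m + 3))
    (h0 : ∀ i, g.1 i 0 = (1 : Matrix (Fin (m + 3)) (Fin (m + 3)) R) i 0 ∧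
      g.1 0 i = (1 : Matrix (Fin (m + 3)) (Fin (m + 3)) R) 0 i)
    (j : Fin (m + 3)) (hj : 0 ≠ j) (c : R) :
    g * tv 0 j hj c * g⁻¹ * (tv 0 j hj c)⁻¹ ∈ EE R (m + 3) a ∧
    g * tv j 0 (Ne.symm hj) c * g⁻¹ * (tv j 0 (Ne.symm hj) c)⁻¹ ∈ EE R (m + 3) a := by
  have hgi : g⁻¹ ∈ Cg a (m + 3) := Subgroup.inv_mem _ hg
  rw [mem_Cg] at hg hgi
  have hcol : g.1 *ᵥ Pi.single 0 1 = Pi.single 0 1 := by
    rw [mulVec_single_one]
    funext i
    rw [Matrix.col_apply, (h0 i).1, Matrix.one_apply, Pi.single_apply]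
  have hrow : Pi.single 0 1 ᵥ* g.1 = Pi.single 0 1 := by
    rw [single_one_vecMul]
    funext i
    rw [Matrix.row_apply, (h0 i).2, Matrix.one_apply, Pi.single_apply]
    simp only [eq_comm]
  have hcoli : g⁻¹.1 *ᵥ Pi.single 0 1 = Pi.single 0 1 := by
    calc g⁻¹.1 *ᵥ Pi.single 0 1 = g⁻¹.1 *ᵥ (g.1 *ᵥ Pi.single 0 1) := by rw [hcol]
      _ = _ := by rw [mulVec_mulVec, ← Units.val_mul, inv_mul_cancel, Units.val_one, one_mulVec]
  have hrowi : Pi.single 0 1 ᵥ* g⁻¹.1 = Pi.single 0 1 := by
    calc Pi.single 0 1 ᵥ* g⁻¹.1 = (Pi.single 0 1 ᵥ* g.1) ᵥ* g⁻¹.1 := by rw [hrow]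
      _ = _ := by rw [vecMul_vecMul, ← Units.val_mul, mul_inv_cancel, Units.val_one, vecMul_one]
  have htv : ∀ (i l : Fin (m + 3)) (hil : i ≠ l) (c : R),
      (tv i l hil c).1 = 1 + vecMulVec (Pi.single i c) (Pi.single l 1) := by
    intro i l hil c
    rw [tv_val, transvection]
    congr 1
    ext x y
    rw [vecMulVec_apply, Matrix.single_apply, Pi.single_apply, Pi.single_apply]
    by_cases h1 : x = i
    · by_cases h2 : y = l
      · simp [h1, h2]
      · simp [h1, h2, Ne.symm h2]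
    · simp [h1, Ne.symm h1]
  have hconj : ∀ (u w : Fin (m + 3) → R),
      g.1 * (1 + vecMulVec u w) * g⁻¹.1 = 1 + vecMulVec (g.1 *ᵥ u) (w ᵥ* g⁻¹.1) := by
    intro u w
    rw [mul_add, mul_one, add_mul, ← Units.val_mul, mul_inv_cancel, Units.val_one,
      mul_vecMulVec, vecMulVec_mul]
  have hone : ∀ l, (1 : Matrix (Fin (m + 3)) (Fin (m + 3)) R) j l = (Pi.single j 1 : _ → R) l := by
    intro l
    rw [Matrix.one_apply, Pi.single_apply]
    simp only [eq_comm]
  constructor
  · -- the row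
    let w : Fin (m + 3) → R := fun l => c * (g⁻¹.1 j l - (1 : Matrix _ _ R) j l)
    have hw0 : w 0 = 0 := by
      simp only [w]
      have h1 : g⁻¹.1 j 0 = 0 := by
        have := congrFun hcoli j
        rw [mulVec_single_one, Matrix.col_apply, Pi.single_eq_of_ne (Ne.symm hj)] at this
        exact this
      rw [h1, Matrix.one_apply_ne (Ne.symm hj), sub_zero, mul_zero]
    have hw : w ⬝ᵥ (Pi.single 0 1 : Fin (m + 3) → R) = 0 := by
      rw [dotProduct_single, hw0, zero_mul]
    have key : g * tv 0 j hj c * g⁻¹ * (tv 0 j hj c)⁻¹ = EV (Pi.single 0 1) w hw := by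
      rw [mul_inv_eq_iff_eq_mul]
      apply Units.ext
      rw [Units.val_mul, Units.val_mul, Units.val_mul, htv, hconj, EV_val]
      have e1 : (Pi.single 0 c : Fin (m + 3) → R) = c • Pi.single 0 1 := by
        rw [← Pi.single_smul, smul_eq_mul, mul_one]
      have e2 : Pi.single j 1 ᵥ* g⁻¹.1 = g⁻¹.1 j := by
        rw [single_one_vecMul]
        rfl
      have e3 : vecMulVec (Pi.single 0 1 : Fin (m + 3) → R) w *
          vecMulVec (c • Pi.single 0 1) (Pi.single j 1) = 0 := by
        rw [vecMulVec_mul_vecMulVec, dotProduct_smul, hw, smul_zero, zero_smul, vecMulVec_zero]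
      rw [e1, mulVec_smul, hcol, e2, add_mul, mul_add, mul_add, mul_one, one_mul, mul_one, e3,
        add_zero, add_assoc]
      congr 1
      ext x y
      rw [Matrix.add_apply, vecMulVec_apply, vecMulVec_apply, vecMulVec_apply]
      simp only [w, Pi.smul_apply, smul_eq_mul, hone]
      ring
    rw [key]
    refine row_mem_EE 0 Finset.univ w hw hw0 (fun l => ?_) fun l hl => absurd (Finset.mem_univ l) hl
    exact (hgi j l).mul_left c
  · -- the column
    let u : Fin (m + 3) → R := fun l => c * (g.1 l j - (1 : Matrix _ _ R) l j)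
    have hu0 : u 0 = 0 := by
      simp only [u]
      rw [(h0 j).2, sub_self, mul_zero]
    have hu : (Pi.single 0 1 : Fin (m + 3) → R) ⬝ᵥ u = 0 := by
      rw [single_dotProduct, hu0, mul_zero]
    have key : g * tv j 0 (Ne.symm hj) c * g⁻¹ * (tv j 0 (Ne.symm hj) c)⁻¹ =
        EV u (Pi.single 0 1) hu := by
      rw [mul_inv_eq_iff_eq_mul]
      apply Units.ext
      rw [Units.val_mul, Units.val_mul, Units.val_mul, htv, hconj, EV_val]
      have e1 : (Pi.single j c : Fin (m + 3) → R) = c • Pi.single j 1 := by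
        rw [← Pi.single_smul, smul_eq_mul, mul_one]
      have e2 : g.1 *ᵥ Pi.single j 1 = fun l => g.1 l j := by
        rw [mulVec_single_one]
        rfl
      have e3 : vecMulVec u (Pi.single 0 1) *
          vecMulVec (c • Pi.single j 1) (Pi.single 0 1 : Fin (m + 3) → R) = 0 := by
        rw [vecMulVec_mul_vecMulVec, dotProduct_smul, single_dotProduct, Pi.single_eq_of_ne hj,
          mul_zero, smul_zero, zero_smul, vecMulVec_zero]
      rw [e1, mulVec_smul, hrowi, e2, add_mul, mul_add, mul_add, mul_one, one_mul, mul_one, e3,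
        add_zero, add_assoc]
      congr 1
      ext x y
      have e4 : (1 : Matrix (Fin (m + 3)) (Fin (m + 3)) R) x j = (Pi.single j 1 : _ → R) x := by
        rw [Matrix.one_apply, Pi.single_apply]
      rw [Matrix.add_apply, vecMulVec_apply, vecMulVec_apply, vecMulVec_apply]
      simp only [u, Pi.smul_apply, smul_eq_mul, e4]
      ring
    rw [key]
    refine col_mem_EE 0 1 Finset.univ u hu hu0 (fun l => ?_) fun l hl => absurd (Finset.mem_univ l) hl
    exact (hg l j).mul_left c

end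

/-- centrality -/
theorem central {R : Type} [CommRing R] [IsDomain R] [IsDedekindDomain R] (m : ℕ) (a : R)
    (ha0 : a ≠ 0) (hau : ¬ IsUnit a) (N : Subgroup (En R (m + 3))) (hN : N.Normal)
    (hNE : ∀ x : En R (m + 3), x.1 ∈ EE R (m + 3) a → x ∈ N)
    (g : En R (m + 3)) (hg : g.1 ∈ Cg a (m + 3)) (y : En R (m + 3)) :
    (QuotientGroup.mk g : En R (m + 3) ⧸ N) * QuotientGroup.mk y =
      QuotientGroup.mk y * QuotientGroup.mk g := by
  obtain ⟨x, hx, hxg⟩ := dec R m a ha0 hau g.1 (mem_Cg.1 hg)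
  let x' : En R (m + 3) := ⟨x, EE_le_En a hx⟩
  have hx' : x' ∈ N := hNE x' hx
  have hg' : (x' * g).1 ∈ Cg a (m + 3) := Subgroup.mul_mem _ (EE_le_Cg hx) hg
  have e1 : (QuotientGroup.mk g : En R (m + 3) ⧸ N) = QuotientGroup.mk (x' * g) := by
    have h1 : (QuotientGroup.mk x' : En R (m + 3) ⧸ N) = 1 := (QuotientGroup.eq_one_iff x').2 hx'
    rw [QuotientGroup.mk_mul, h1, one_mul]
  rw [e1]
  let C : Subgroup (En R (m + 3)) :=
    (Subgroup.centralizer {(QuotientGroup.mk (x' * g) : En R (m + 3) ⧸ N)}).comap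
      (QuotientGroup.mk' N)
  have hC : ∀ y : En R (m + 3), x' * g * y * (x' * g)⁻¹ * y⁻¹ ∈ N → y ∈ C := by
    intro y hy
    rw [Subgroup.mem_comap, Subgroup.mem_centralizer_iff]
    rintro _ rfl
    have h1 : (QuotientGroup.mk (x' * g * y * (x' * g)⁻¹ * y⁻¹) : En R (m + 3) ⧸ N) = 1 :=
      (QuotientGroup.eq_one_iff _).2 hy
    rw [QuotientGroup.mk_mul, QuotientGroup.mk_mul, QuotientGroup.mk_mul, QuotientGroup.mk_inv,
      QuotientGroup.mk_inv, mul_inv_eq_one, mul_inv_eq_iff_eq_mul] at h1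
    exact h1
  have htop : C = ⊤ := by
    refine closure_te0 C (fun j hj c => ?_) (fun j hj c => ?_)
    · exact hC _ (hNE _ (blk_row (x' * g).1 hg' hxg j hj c).1)
    · exact hC _ (hNE _ (blk_row (x' * g).1 hg' hxg j (Ne.symm hj) c).2)
  have hy : y ∈ C := by rw [htop]; exact Subgroup.mem_top y
  rw [Subgroup.mem_comap, Subgroup.mem_centralizer_iff] at hy
  exact hy _ rfl

theorem finite_of_center {G : Type} [Group G] (h : (Subgroup.center G).FiniteIndex)
    (hp : commutator G = ⊤) : Finite G := by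
  have : Finite (G ⧸ Subgroup.center G) := Subgroup.finite_quotient_of_finiteIndex
  have hfin : Finite (commutatorSet G) := by
    let f : (G ⧸ Subgroup.center G) × (G ⧸ Subgroup.center G) → G :=
      fun p => ⁅p.1.out, p.2.out⁆
    have hsub : commutatorSet G ⊆ Set.range f := by
      rintro _ ⟨x, y, rfl⟩
      refine ⟨(QuotientGroup.mk x, QuotientGroup.mk y), ?_⟩
      obtain ⟨z, hz⟩ := QuotientGroup.mk_out_eq_mul (Subgroup.center G) x
      obtain ⟨w, hw⟩ := QuotientGroup.mk_out_eq_mul (Subgroup.center G) y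
      have hz' := Subgroup.mem_center_iff.1 z.2
      have hw' := Subgroup.mem_center_iff.1 w.2
      change ⁅(QuotientGroup.mk x : G ⧸ Subgroup.center G).out,
        (QuotientGroup.mk y : G ⧸ Subgroup.center G).out⁆ = ⁅x, y⁆
      rw [hz, hw, commutatorElement_def, commutatorElement_def]
      have e1 : x * z.1 * (y * w.1) = x * y * (z.1 * w.1) := by
        rw [mul_assoc x, ← mul_assoc z.1, ← hz' y]
        group
      have e2 : (x * z.1)⁻¹ * (y * w.1)⁻¹ = (z.1 * w.1)⁻¹ * (x⁻¹ * y⁻¹) := by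
        have h3 : (y * w.1) * (x * z.1) = (y * x) * (z.1 * w.1) := by
          calc (y * w.1) * (x * z.1) = y * (w.1 * x) * z.1 := by group
            _ = y * (x * w.1) * z.1 := by rw [hw' x]
            _ = (y * x) * (w.1 * z.1) := by group
            _ = (y * x) * (z.1 * w.1) := by rw [hz' w.1]
        rw [← _root_.mul_inv_rev, h3, _root_.mul_inv_rev, _root_.mul_inv_rev y x]
      calc x * z.1 * (y * w.1) * (x * z.1)⁻¹ * (y * w.1)⁻¹
          = x * z.1 * (y * w.1) * ((x * z.1)⁻¹ * (y * w.1)⁻¹) := by group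
        _ = x * y * (z.1 * w.1) * ((z.1 * w.1)⁻¹ * (x⁻¹ * y⁻¹)) := by rw [e1, e2]
        _ = x * y * x⁻¹ * y⁻¹ := by group
    exact (Set.finite_range f).subset hsub
  have : Finite (commutator G) := inferInstance
  rw [hp] at this
  exact Finite.of_equiv _ Subgroup.topEquiv.toEquiv

theorem tFin : SFin := by
  intro F _ _ m a ha0 N hN hNE
  by_cases hau : IsUnit a
  · have : N = ⊤ := by
      refine closure_te N fun i j hij c => hNE _ ?_
      obtain ⟨u, rfl⟩ := hau
      refine tv_mem_EE i j hij ⟨(↑u⁻¹ : 𝓞 F) * c, ?_⟩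
      rw [← mul_assoc, Units.mul_inv, one_mul]
    rw [this]
    infer_instance
  · -- the congruence subgroup
    have hI : Finite (𝓞 F ⧸ Ideal.span {a}) := by
      refine Ideal.finiteQuotientOfFreeOfNeBot _ ?_
      rw [Ne, Ideal.span_singleton_eq_bot]
      exact ha0
    have hCg : (Cg a (m + 3)).FiniteIndex := by
      unfold Cg
      have : Finite (GL (Fin (m + 3)) (𝓞 F ⧸ Ideal.span {a})) := inferInstance
      infer_instance
    have hCE : ((Cg a (m + 3)).subgroupOf (En (𝓞 F) (m + 3))).FiniteIndex := inferInstance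
    have hcen : (Subgroup.center (En (𝓞 F) (m + 3) ⧸ N)).FiniteIndex := by
      have h1 : (Cg a (m + 3)).subgroupOf (En (𝓞 F) (m + 3)) ≤
          (Subgroup.center (En (𝓞 F) (m + 3) ⧸ N)).comap (QuotientGroup.mk' N) := by
        intro g hg
        rw [Subgroup.mem_comap, Subgroup.mem_center_iff]
        intro q
        obtain ⟨y, rfl⟩ := QuotientGroup.mk_surjective q
        exact (central m a ha0 hau N hN hNE g hg y).symm
      have h2 := Subgroup.finiteIndex_of_le h1
      constructor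
      rw [← Subgroup.index_comap_of_surjective _ (QuotientGroup.mk'_surjective N)]
      exact h2.index_ne_zero
    have hperf : commutator (En (𝓞 F) (m + 3) ⧸ N) = ⊤ := by
      rw [commutator_def, eq_top_iff]
      have h1 : (commutator (En (𝓞 F) (m + 3))).map (QuotientGroup.mk' N) ≤
          ⁅(⊤ : Subgroup (En (𝓞 F) (m + 3) ⧸ N)), ⊤⁆ := by
        rw [commutator_def, Subgroup.map_commutator]
        exact Subgroup.commutator_mono le_top le_top
      rw [perfect] at h1
      rwa [Subgroup.map_top_of_surjective _ (QuotientGroup.mk'_surjective N)] at h1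
    have hfin : Finite (En (𝓞 F) (m + 3) ⧸ N) := finite_of_center hcen hperf
    exact Subgroup.finiteIndex_of_finite_quotient

end Q4.ZI
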