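import Pool.Agent.Q4.ZI.Stm

/-!
# Project ZI, job LIN: real representations of small dimension of finite abelian groups
-/

namespace Q4.ZI

open Module

section

variable {A : Type} [CommGroup A] [Finite A] {V : Type} [AddCommGroup V] [Module ℝ V]

/-- invariant subspaces -/
def Inv (ρ : A →* (V →ₗ[ℝ] V)) (W : Submodule ℝ V) : Prop := ∀ a : A, ∀ v ∈ W, ρ a v ∈ W

theorem exists_min [FiniteDimensional ℝ V] (ρ : A →* (V →ₗ[ℝ] V)) (U : Submodule ℝ V)
    (hU : U ≠ ⊥) (hUi : Inv ρ U) :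
    ∃ W : Submodule ℝ V, W ≤ U ∧ W ≠ ⊥ ∧ Inv ρ W ∧
      ∀ W' : Submodule ℝ V, W' ≤ W → Inv ρ W' → W' = ⊥ ∨ W' = W := by
  classical
  have hex : ∃ d : ℕ, ∃ W : Submodule ℝ V, W ≤ U ∧ W ≠ ⊥ ∧ Inv ρ W ∧ finrank ℝ W = d :=
    ⟨_, U, le_rfl, hU, hUi, rfl⟩
  obtain ⟨W, h1, h2, h3, h4⟩ := Nat.find_spec hex
  refine ⟨W, h1, h2, h3, fun W' hW' hi => ?_⟩
  by_cases hb : W' = ⊥
  · exact Or.inl hb
  · right
    have h5 := Nat.find_min' hex ⟨W', hW'.trans h1, hb, hi, rfl⟩
    rw [← h4] at h5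
    exact Submodule.eq_of_le_of_finrank_le hW' h5

/-- the restriction of the representation to an invariant subspace -/
def res (ρ : A →* (V →ₗ[ℝ] V)) (W : Submodule ℝ V) (h : Inv ρ W) : A →* (W →ₗ[ℝ] W) where
  toFun a := (ρ a).restrict (h a)
  map_one' := by
    ext v
    simp
  map_mul' a b := by
    ext v
    simp

theorem res_apply (ρ : A →* (V →ₗ[ℝ] V)) (W : Submodule ℝ V) (h : Inv ρ W) (a : A) (v : W) :
    (res ρ W h a v : V) = ρ a v := rfl

/-- the representation on the quotient by an invariant subspace -/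
def quo (ρ : A →* (V →ₗ[ℝ] V)) (W : Submodule ℝ V) (h : Inv ρ W) :
    A →* ((V ⧸ W) →ₗ[ℝ] (V ⧸ W)) where
  toFun a := W.mapQ W (ρ a) (h a)
  map_one' := by
    ext v
    simp
  map_mul' a b := by
    ext v
    simp

/-- the image of an elementary abelian `p`-group in an irreducible representation -/
theorem index_le {p : ℕ} (hp : p.Prime) (ρ : A →* (V →ₗ[ℝ] V)) (W : Submodule ℝ V)
    (hW0 : W ≠ ⊥) (hW : Inv ρ W)
    (hmin : ∀ W' : Submodule ℝ V, W' ≤ W → Inv ρ W' → W' = ⊥ ∨ W' = W) (Ω : Subgroup A)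
    (hΩ : ∀ g ∈ Ω, g ^ p = 1) :
    ∃ Ω1 : Subgroup A, Ω1 ≤ Ω ∧ (∀ g ∈ Ω1, ∀ v ∈ W, ρ g v = v) ∧
      Nat.card Ω ≤ Nat.card Ω1 * p := by
  classical
  let r := res ρ W hW
  have hcomm : ∀ a ∈ Set.range r, ∀ b ∈ Set.range r, a * b = b * a := by
    rintro _ ⟨a, rfl⟩ _ ⟨b, rfl⟩
    rw [← map_mul, mul_comm, map_mul]
  let B := Algebra.adjoin ℝ (Set.range r)
  let cr : CommRing B := Algebra.adjoinCommRingOfComm ℝ hcomm
  have hcB : ∀ b ∈ B, ∀ a : A, b * r a = r a * b := by
    intro b hb a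
    induction hb using Algebra.adjoin_induction with
    | mem x hx => exact hcomm x hx _ ⟨a, rfl⟩
    | algebraMap c => exact Algebra.commutes c (r a)
    | add x y _ _ hx hy => rw [add_mul, mul_add, hx, hy]
    | mul x y _ _ hx hy => rw [mul_assoc, hy, ← mul_assoc, hx, mul_assoc]
  have hinj : ∀ b ∈ B, b ≠ 0 → ∀ w : W, b w = 0 → w = 0 := by
    intro b hb hb0 w hw
    let K : Submodule ℝ V := (LinearMap.ker b).map W.subtype
    have hK : K ≤ W := Submodule.map_subtype_le W _
    have hKi : Inv ρ K := by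
      rintro a _ ⟨v, hv, rfl⟩
      refine ⟨r a v, ?_, rfl⟩
      have h1 : b (r a v) = r a (b v) := congrArg (fun f : W →ₗ[ℝ] W => f v) (hcB b hb a)
      change b (r a v) = 0
      rw [h1]
      have h2 : b v = 0 := hv
      rw [h2, map_zero]
    rcases hmin K hK hKi with h | h
    · have h1 : (w : V) ∈ K := ⟨w, hw, rfl⟩
      rw [h, Submodule.mem_bot] at h1
      exact Subtype.ext h1
    · exfalso
      apply hb0
      ext v
      have h1 : (v : V) ∈ K := by rw [h]; exact v.2
      obtain ⟨v', hv', e⟩ := h1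
      have e' : v' = v := Subtype.ext e
      have h2 : b v' = 0 := hv'
      rw [← e', h2]
      rfl
  obtain ⟨w0, hw0W, hw0⟩ := Submodule.exists_mem_ne_zero_of_ne_bot hW0
  have hnt : Nontrivial B := by
    refine ⟨⟨0, 1, fun h => hw0 ?_⟩⟩
    have h1 : (0 : W →ₗ[ℝ] W) = 1 := congrArg Subtype.val h
    have h2 := congrArg (fun f : W →ₗ[ℝ] W => ((f ⟨w0, hw0W⟩ : W) : V)) h1
    exact h2.symm
  have hdom : IsDomain B := by
    have : NoZeroDivisors B := by
      refine ⟨fun {a b} hab => ?_⟩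
      by_contra hcon
      push Not at hcon
      have ha : a.1 ≠ 0 := fun h => hcon.1 (Subtype.ext h)
      have hb : b.1 ≠ 0 := fun h => hcon.2 (Subtype.ext h)
      apply hb
      ext v
      have h1 : a.1 * b.1 = 0 := congrArg Subtype.val hab
      have h2 : a.1 (b.1 v) = 0 := congrArg (fun f : W →ₗ[ℝ] W => f v) h1
      rw [hinj a.1 a.2 ha _ h2]
      rfl
    exact NoZeroDivisors.to_isDomain B
  have hp0 : NeZero p := ⟨hp.ne_zero⟩
  let f0 : Ω →* B :=
    { toFun := fun g => ⟨r g.1, Algebra.subset_adjoin ⟨g.1, rfl⟩⟩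
      map_one' := Subtype.ext (map_one r)
      map_mul' := fun g h => Subtype.ext (map_mul r g.1 h.1) }
  let f : Ω →* Bˣ := f0.toHomUnits
  have hfle : f.range ≤ rootsOfUnity p B := by
    rintro _ ⟨g, rfl⟩
    rw [mem_rootsOfUnity, ← map_pow]
    have : g ^ p = 1 := Subtype.ext (hΩ g.1 g.2)
    rw [this, map_one]
  have hfc : Nat.card f.range ≤ p := by
    refine (Nat.card_le_card_of_injective _ (Subgroup.inclusion_injective hfle)).trans ?_
    exact card_rootsOfUnity B p
  refine ⟨f.ker.map Ω.subtype, ?_, ?_, ?_⟩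
  · rintro _ ⟨g, -, rfl⟩
    exact g.2
  · rintro _ ⟨g, hg, rfl⟩ v hv
    have h1 : f g = 1 := hg
    have h2 : r g.1 = 1 := by
      have := congrArg (fun u : Bˣ => ((u : B) : W →ₗ[ℝ] W)) h1
      exact this
    exact congrArg (fun u : W →ₗ[ℝ] W => ((u ⟨v, hv⟩ : W) : V)) h2
  · have h1 : Nat.card (f.ker.map Ω.subtype) = Nat.card f.ker :=
      Nat.card_congr (f.ker.equivMapOfInjective Ω.subtype Ω.subtype_injective).toEquiv.symm
    have h2 : Nat.card Ω = Nat.card (Ω ⧸ f.ker) * Nat.card f.ker :=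
      Subgroup.card_eq_card_quotient_mul_card_subgroup _
    have h3 : Nat.card (Ω ⧸ f.ker) = Nat.card f.range :=
      Nat.card_congr (QuotientGroup.quotientKerEquivRange f).toEquiv
    rw [h1, h2, h3, mul_comm]
    exact Nat.mul_le_mul_left _ hfc

end

theorem lin_aux (p : ℕ) (hp : p.Prime) (A : Type) [CommGroup A] [Finite A] (d : ℕ) :
    ∀ (V : Type) [AddCommGroup V] [Module ℝ V] [FiniteDimensional ℝ V], finrank ℝ V = d →
    ∀ (ρ : A →* (V →ₗ[ℝ] V)) (Ω : Subgroup A), (∀ g ∈ Ω, g ^ p = 1) →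
    (∀ g ∈ Ω, ∃ h : A, h ^ 2 = g) →
    ∃ Ω' : Subgroup A, Ω' ≤ Ω ∧ (∀ g ∈ Ω', ρ g = 1) ∧
      Nat.card Ω ≤ Nat.card Ω' * p ^ (finrank ℝ V / 2) := by
  induction d using Nat.strong_induction_on with
  | _ d ih =>
    intro V _ _ _ hd ρ Ω hΩp hΩs
    by_cases htriv : ∀ g ∈ Ω, ρ g = 1
    · exact ⟨Ω, le_rfl, htriv, Nat.le_mul_of_pos_right _ (pow_pos hp.pos _)⟩
    · push Not at htriv
      obtain ⟨g0, hg0, hg0n⟩ := htriv
      -- powers of an operator which is unipotent of height two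
      have huni : ∀ (g : A) (v w : V), ρ g v = v + w → ρ g w = w → ∀ k : ℕ,
          ρ (g ^ k) v = v + k • w := by
        intro g v w h1 h2 k
        induction k with
        | zero => simp
        | succ k ihk =>
          rw [pow_succ', map_mul]
          change ρ g (ρ (g ^ k) v) = _
          rw [ihk, map_add, map_nsmul, h1, h2, succ_nsmul]
          abel
      have hpow : ∀ (g : A) (v w : V), g ^ p = 1 → ρ g v = v + w → ρ g w = w → w = 0 := by
        intro g v w hg h1 h2
        have h3 := huni g v w h1 h2 p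
        rw [hg, map_one] at h3
        have h4 : v = v + p • w := h3
        have h5 : p • w = 0 := by
          have := congrArg (fun u => u - v) h4
          simpa using this.symm
        rw [← Nat.cast_smul_eq_nsmul ℝ] at h5
        rcases smul_eq_zero.1 h5 with h6 | h6
        · exact absurd h6 (Nat.cast_ne_zero.2 hp.ne_zero)
        · exact h6
      let U := LinearMap.range (ρ g0 - 1)
      have hU : U ≠ ⊥ := by
        intro h
        exact hg0n (sub_eq_zero.1 (LinearMap.range_eq_bot.1 h))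
      have hcom : ∀ a b : A, ∀ v : V, ρ a (ρ b v) = ρ b (ρ a v) := by
        intro a b v
        have := congrArg (fun f : V →ₗ[ℝ] V => f v) (map_mul ρ a b)
        have h2 := congrArg (fun f : V →ₗ[ℝ] V => f v) (map_mul ρ b a)
        have h3 : ρ (a * b) v = ρ a (ρ b v) := this
        have h4 : ρ (b * a) v = ρ b (ρ a v) := h2
        rw [← h3, ← h4, mul_comm]
      have hUi : Inv ρ U := by
        rintro a _ ⟨v, rfl⟩
        refine ⟨ρ a v, ?_⟩
        change ρ g0 (ρ a v) - ρ a v = ρ a (ρ g0 v - v)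
        rw [map_sub, hcom]
      obtain ⟨W, hWU, hW0, hWi, hmin⟩ := exists_min ρ U hU hUi
      obtain ⟨Ω1, hΩ1, hΩ1W, hc1⟩ := index_le hp ρ W hW0 hWi hmin Ω hΩp
      -- the dimension of W is at least two
      have hW2 : 2 ≤ finrank ℝ W := by
        by_contra hlt
        have hpos : 0 < finrank ℝ W := by
          rw [Module.finrank_pos_iff]
          exact Submodule.nontrivial_iff_ne_bot.2 hW0
        have h1 : finrank ℝ W = 1 := by omega
        obtain ⟨w, hw0, hw⟩ := finrank_eq_one_iff'.1 h1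
        have hsc : ∀ a : A, ∃ c : ℝ, ρ a w = c • (w : V) := by
          intro a
          obtain ⟨c, hc⟩ := hw ⟨ρ a w, hWi a _ w.2⟩
          exact ⟨c, (congrArg Subtype.val hc).symm⟩
        have hw0' : (w : V) ≠ 0 := fun h => hw0 (Subtype.ext h)
        have hpm : ∀ a : A, ρ (a ^ 2) w = (w : V) := by
          intro a
          obtain ⟨c, hc⟩ := hsc a
          have hk : ∀ k : ℕ, ρ (a ^ k) w = c ^ k • (w : V) := by
            intro k
            induction k with
            | zero => simp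
            | succ k ihk =>
              rw [pow_succ', map_mul]
              change ρ a (ρ (a ^ k) w) = _
              rw [ihk, map_smul, hc, smul_smul, pow_succ]
          have h2 := hk (Nat.card A)
          rw [pow_card_eq_one', map_one] at h2
          have h3 : (1 : ℝ) • (w : V) = c ^ Nat.card A • (w : V) := by rw [one_smul]; exact h2
          have h4 : c ^ Nat.card A = 1 := (smul_left_injective ℝ hw0' h3).symm
          have h5 : |c| = 1 := by
            have : |c| ^ Nat.card A = 1 := by rw [← abs_pow, h4, abs_one]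
            exact (pow_eq_one_iff_of_nonneg (abs_nonneg c) Nat.card_pos.ne').1 this
          rw [hk 2]
          have h6 : c ^ 2 = 1 := by rw [← sq_abs, h5, one_pow]
          rw [h6, one_smul]
        obtain ⟨h, hh⟩ := hΩs g0 hg0
        have hfix : ρ g0 w = (w : V) := by rw [← hh]; exact hpm h
        obtain ⟨u, hu⟩ := hWU w.2
        have hu' : ρ g0 u = u + (w : V) := by
          have : ρ g0 u - u = (w : V) := hu
          rw [← this]
          abel
        exact hw0' (hpow g0 u w (hΩp g0 hg0) hu' hfix)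
      have hfr : finrank ℝ (V ⧸ W) + finrank ℝ W = finrank ℝ V := Submodule.finrank_quotient_add_finrank W
      obtain ⟨Ω', hΩ', htr, hc2⟩ := ih (finrank ℝ (V ⧸ W)) (by omega) (V ⧸ W) rfl (quo ρ W hWi) Ω1
        (fun g hg => hΩp g (hΩ1 hg)) (fun g hg => hΩs g (hΩ1 hg))
      refine ⟨Ω', hΩ'.trans hΩ1, fun g hg => ?_, ?_⟩
      · ext v
        have h1 : quo ρ W hWi g (W.mkQ v) = W.mkQ v := by rw [htr g hg]; rfl
        have h2 : W.mkQ (ρ g v) = W.mkQ v := h1
        have h3 : ρ g v - v ∈ W := by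
          rw [← Submodule.ker_mkQ W, LinearMap.mem_ker, map_sub, h2, sub_self]
        have h4 : ρ g (ρ g v - v) = ρ g v - v := hΩ1W g (hΩ' hg) _ h3
        have h5 := hpow g v (ρ g v - v) (hΩp g (hΩ1 (hΩ' hg))) (by abel) h4
        exact sub_eq_zero.1 h5
      · calc Nat.card Ω ≤ Nat.card Ω1 * p := hc1
          _ ≤ (Nat.card Ω' * p ^ (finrank ℝ (V ⧸ W) / 2)) * p := Nat.mul_le_mul_right _ hc2
          _ = Nat.card Ω' * p ^ (finrank ℝ (V ⧸ W) / 2 + 1) := by rw [mul_assoc, ← pow_succ]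
          _ ≤ Nat.card Ω' * p ^ (finrank ℝ V / 2) :=
            Nat.mul_le_mul_left _ (Nat.pow_le_pow_right hp.pos (by omega))

theorem tLin : SLin := fun p hp A _ _ V _ _ _ ρ Ω h1 h2 => lin_aux p hp A _ V rfl ρ Ω h1 h2

end Q4.ZI
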