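import Pool.Agent.Q4.ZI.Stm
import Pool.Agent.Q4.ZI.Eul

/-!
# Project ZI: the main theorem from the lemma jobs
-/

open Matrix NumberField
open scoped Manifold ContDiff

namespace Q4.ZI

theorem main (hFin : SFin) (hLin : SLin) (hLoc : SLoc) (hDia : SDia)
    (F : Type) [Field F] [NumberField F] (p : ℕ) (hp : p.Prime)
    (ζ : 𝓞 F) (hζ : IsPrimitiveRoot ζ (qq p)) (n : ℕ) (hn : 3 ≤ n)
    (E M : Type) [NormedAddCommGroup E] [NormedSpace ℝ E] [FiniteDimensional ℝ E]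
    (hE : Module.finrank ℝ E < 2 * (n - 1)) (hpn : p ∣ n → Module.finrank ℝ E < 2 * (n - 2))
    [TopologicalSpace M] [T2Space M] [ConnectedSpace M] [ChartedSpace E M]
    [IsManifold 𝓘(ℝ, E) 1 M] [MulAction (En (𝓞 F) n) M]
    (hsm : ∀ g : En (𝓞 F) n, ContMDiff 𝓘(ℝ, E) 𝓘(ℝ, E) 1 (fun y : M => g • y))
    (h : (∃ x : M, ∀ g ∈ Dg (𝓞 F) (qq p) n, g • x = x) ∨
      ∃ T : Tri (Dg (𝓞 F) (qq p) n) M, ¬ (p : ℤ) ∣ T.chi) :
    (∀ ζ' : 𝓞 F, IsPrimitiveRoot ζ' p → ∀ g : En (𝓞 F) n, g.1 ∈ EE (𝓞 F) n (1 - ζ') →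
      ∀ y : M, g • y = y) ∧ Finite (MulAction.toPermHom (En (𝓞 F) n) M).range := by
  have : Fact p.Prime := ⟨hp⟩
  obtain ⟨hfinD, hpD, Ω, hΩp, hΩsq, hΩcard, hΩN⟩ := hDia (𝓞 F) p n hp ⟨ζ, hζ⟩ hn
  -- the fixed point
  obtain ⟨x, hx⟩ : ∃ x : M, ∀ g : Dg (𝓞 F) (qq p) n, g • x = x := by
    rcases h with ⟨x, hx⟩ | ⟨T, hT⟩
    · exact ⟨x, fun g => hx g.1 g.2⟩
    · exact tEul p (Dg (𝓞 F) (qq p) n) M hpD T hT
  obtain ⟨ρ, hρ⟩ := hLoc E M (Dg (𝓞 F) (qq p) n) (fun g => hsm g.1) x hx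
  -- the abelian group
  have hcomm : ∀ a b : Dg (𝓞 F) (qq p) n, a * b = b * a := by
    rintro ⟨a, u, hu, ha⟩ ⟨b, w, hw, hb⟩
    apply Subtype.ext
    apply Subtype.ext
    apply Units.ext
    change a.1.1 * b.1.1 = b.1.1 * a.1.1
    rw [ha, hb, Matrix.diagonal_mul_diagonal, Matrix.diagonal_mul_diagonal]
    congr 1
    funext i
    exact mul_comm _ _
  let cg : CommGroup (Dg (𝓞 F) (qq p) n) :=
    { (inferInstance : Group (Dg (𝓞 F) (qq p) n)) with mul_comm := hcomm }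
  obtain ⟨Ω', hle, htriv, hcard⟩ := @hLin p hp (Dg (𝓞 F) (qq p) n) cg hfinD E _ _ _ ρ Ω hΩp hΩsq
  set N := (MulAction.toPermHom (En (𝓞 F) n) M).ker with hN
  have hmem : ∀ g : En (𝓞 F) n, g ∈ N ↔ ∀ y : M, g • y = y := by
    intro g
    rw [hN, MonoidHom.mem_ker]
    constructor
    · intro h y
      exact congrArg (fun f : Equiv.Perm M => f y) h
    · intro h
      exact Equiv.ext h
  have hΩ'N : ∀ g ∈ Ω', g.1 ∈ N := fun g hg => (hmem g.1).2 fun y => hρ g (htriv g hg) y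
  have hp1 : 1 < p := hp.one_lt
  have hc1 : ∀ k, Module.finrank ℝ E / 2 ≤ k → k + 1 ≤ n - 1 → p ^ (n - 1 - k) ≤ Nat.card Ω' := by
    intro k hk hk'
    have h1 : p ^ (n - 1) ≤ Nat.card Ω' * p ^ k := by
      rw [← hΩcard]
      exact hcard.trans (Nat.mul_le_mul_left _ (Nat.pow_le_pow_right hp.pos hk))
    have h2 : p ^ (n - 1) = p ^ (n - 1 - k) * p ^ k := by
      rw [← pow_add]
      congr 1
      omega
    rw [h2] at h1
    exact Nat.le_of_mul_le_mul_right h1 (pow_pos hp.pos k)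
  have hEE : ∀ ζ' : 𝓞 F, IsPrimitiveRoot ζ' p → ∀ g : En (𝓞 F) n,
      g.1 ∈ EE (𝓞 F) n (1 - ζ') → g ∈ N := by
    refine hΩN Ω' hle ?_ ?_ N inferInstance hΩ'N
    · have := hc1 (n - 2) (by omega) (by omega)
      have e : n - 1 - (n - 2) = 1 := by omega
      rw [e, pow_one] at this
      omega
    · intro hd
      have h3 := hpn hd
      have := hc1 (n - 3) (by omega) (by omega)
      have e : n - 1 - (n - 3) = 2 := by omega
      rw [e] at this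
      nlinarith
  refine ⟨fun ζ' hζ' g hg => (hmem g).1 (hEE ζ' hζ' g hg), ?_⟩
  obtain ⟨ζ', hζ'⟩ : ∃ ζ' : 𝓞 F, IsPrimitiveRoot ζ' p := by
    by_cases h2 : p = 2
    · subst h2
      refine ⟨ζ ^ 2, ?_⟩
      have e : qq 2 = 2 * 2 := by unfold qq; simp
      rw [e] at hζ
      exact hζ.pow (by norm_num) rfl
    · refine ⟨ζ, ?_⟩
      have e : qq p = p := by unfold qq; rw [if_neg h2]
      rwa [e] at hζ
  have hne : (1 : 𝓞 F) - ζ' ≠ 0 := by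
    intro h0
    exact hζ'.ne_one hp1 (sub_eq_zero.1 h0).symm
  obtain ⟨m, rfl⟩ : ∃ m, n = m + 3 := ⟨n - 3, by omega⟩
  have hfi : N.FiniteIndex := hFin F m (1 - ζ') hne N inferInstance (hEE ζ' hζ')
  have : Finite (En (𝓞 F) (m + 3) ⧸ N) := Subgroup.finite_quotient_of_finiteIndex
  exact Finite.of_equiv _ (QuotientGroup.quotientKerEquivRange _).toEquiv

end Q4.ZI
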