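import Mathlib

/-!
# Project ZI (helper4): Zimmer's conjecture for `E_n(O)`, `O` the integers of a number field with
enough roots of unity, and for manifolds whose Euler characteristic is prime to `p`

Definitions and the statements of the lemma jobs.
-/

open Matrix NumberField
open scoped Manifold ContDiff

namespace Q4.ZI

/-- the group generated by the elementary matrices -/
def En (R : Type) [CommRing R] (n : ℕ) : Subgroup (GL (Fin n) R) :=
  Subgroup.closure {x | ∃ (i j : Fin n) (c : R), i ≠ j ∧ x.1 = Matrix.transvection i j c}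

/-- the normal subgroup of `En R n` generated by the elementary matrices with entries in `(a)` -/
def EE (R : Type) [CommRing R] (n : ℕ) (a : R) : Subgroup (GL (Fin n) R) :=
  Subgroup.closure {x | ∃ (h : GL (Fin n) R) (i j : Fin n) (b : R), h ∈ En R n ∧ i ≠ j ∧
    x.1 = h.1 * Matrix.transvection i j (a * b) * h⁻¹.1}

/-- the diagonal matrices in `En R n` whose entries are `q`-th roots of unity -/
def Dg (R : Type) [CommRing R] (q n : ℕ) : Subgroup (En R n) where
  carrier := {x | ∃ u : Fin n → Rˣ, (∀ i, u i ^ q = 1) ∧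
    x.1.1 = Matrix.diagonal fun i => (u i : R)}
  one_mem' := ⟨1, fun _ => one_pow q, by
    change (1 : Matrix (Fin n) (Fin n) R) = _
    simp⟩
  mul_mem' := by
    rintro x y ⟨u, hu, hx⟩ ⟨w, hw, hy⟩
    refine ⟨u * w, fun i => by rw [Pi.mul_apply, mul_pow, hu, hw, mul_one], ?_⟩
    change x.1.1 * y.1.1 = _
    rw [hx, hy, Matrix.diagonal_mul_diagonal]
    rfl
  inv_mem' := by
    rintro x ⟨u, hu, hx⟩
    refine ⟨u⁻¹, fun i => by rw [Pi.inv_apply, inv_pow, hu, inv_one], ?_⟩
    change (x.1⁻¹).1 = _
    have h : x.1.1 * (Matrix.diagonal fun i => (((u⁻¹) i : Rˣ) : R)) = 1 := by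
      rw [hx, Matrix.diagonal_mul_diagonal, ← Matrix.diagonal_one]
      congr 1
      funext i
      simp
    calc (x.1⁻¹).1 = (x.1⁻¹).1 * (x.1.1 * (Matrix.diagonal fun i => (((u⁻¹) i : Rˣ) : R))) := by
          rw [h, mul_one]
      _ = _ := by rw [← mul_assoc, ← Units.val_mul, inv_mul_cancel, Units.val_one, one_mul]

/-- a finite triangulation of the space `M`, invariant under the group `A`: an abstract simplicial
complex with an action of `A` on the vertices and an equivariant homeomorphism of its geometric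
realization (barycentric coordinates) with `M` -/
structure Tri (A : Type) [Group A] (M : Type) [TopologicalSpace M] [MulAction A M] where
  /-- the vertices -/
  V : Type
  [fin : Fintype V]
  [dec : DecidableEq V]
  [act : MulAction A V]
  /-- the simplices -/
  K : Finset (Finset V)
  nonempty : ∀ s ∈ K, s.Nonempty
  down : ∀ s ∈ K, ∀ t : Finset V, t ⊆ s → t.Nonempty → t ∈ K
  inv : ∀ (g : A), ∀ s ∈ K, s.image (fun v => g • v) ∈ K
  /-- the homeomorphism -/
  e : {w : V → ℝ // (∀ v, 0 ≤ w v) ∧ ∑ v, w v = 1 ∧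
    Finset.univ.filter (fun v => w v ≠ 0) ∈ K} ≃ₜ M
  equiv : ∀ (g : A) (w w' : {w : V → ℝ // (∀ v, 0 ≤ w v) ∧ ∑ v, w v = 1 ∧
    Finset.univ.filter (fun v => w v ≠ 0) ∈ K}), (∀ v, w'.1 (g • v) = w.1 v) → e w' = g • e w

/-- the Euler characteristic of a triangulation -/
def Tri.chi {A : Type} [Group A] {M : Type} [TopologicalSpace M] [MulAction A M] (T : Tri A M) :
    ℤ := ∑ s ∈ T.K, (-1) ^ (s.card + 1)

/-- JOB ZI-FIN. Normal subgroups of `E_n(O)` which contain `E_n(O, a)`, `a ≠ 0`, have finite
index, `n ≥ 3`.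

Proof. The case of a unit `a` is trivial (`EE` is everything). Otherwise: (1) the analogue of
`Q4.GLC.tDec` (file Pool/Agent/Q4/GLC/Dec.lean, 600 lines) holds with `EE` in place of `EN`: for a
Dedekind domain `R`, `a ≠ 0` not a unit, `g : GL (Fin (m+3)) R` congruent to `1` modulo `a` there is
`x ∈ EE R (m+3) a` such that the first row and column of `x * g` are those of `1` (copy the file;
the only conjugations in the proof are by elementary matrices, so in `conj_mem_EN` one needs
`h ∈ En R n` only). (2) Let `Q = E/N`. The image `C` in `Q` of `{g ∈ E | g = 1 mod a}` is central: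
for `g = 1 ⊕ A` (first row and column trivial, `A = 1 mod a`) the commutator of `g` with
`transvection 0 j c` is a matrix `1 + e_0 wᵀ` with `w` divisible by `a`, a product of
`transvection 0 l (a * b)`, so it is in `EE`; same for `transvection j 0 c`; and the
`transvection 0 j c`, `transvection j 0 c` generate `E` as `transvection i j c` is the commutator of
`transvection i 0 c` and `transvection 0 j 1`. (3) `C` has finite index in `Q` because `O/a` is
finite. So the centre of `Q` has finite index, the commutator subgroup of `Q` is finite (Schur's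
theorem, Mathlib: GroupTheory/Schreier, `commutatorSet` is finite as the commutator map factors
through `Q/Z(Q)`), and `Q` is perfect (`transvection i j c` is the commutator of
`transvection i k c` and `transvection k j 1`). -/
def SFin : Prop :=
  ∀ (F : Type) [Field F] [NumberField F] (m : ℕ) (a : 𝓞 F), a ≠ 0 →
    ∀ N : Subgroup (En (𝓞 F) (m + 3)), N.Normal →
      (∀ x : En (𝓞 F) (m + 3), x.1 ∈ EE (𝓞 F) (m + 3) a → x ∈ N) → N.FiniteIndex

/-- JOB ZI-LIN. Real representations of small dimension of abelian groups are trivial on a large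
part of an elementary abelian `p`-subgroup which consists of squares.

Proof. Induction on `finrank V` (for all `ρ`, `Ω`). If `Ω` acts trivially take `Ω' = Ω`. Otherwise
let `g0 ∈ Ω` act nontrivially. On the complexification `V_C = ℂ ⊗ V` the operator `g0` has an
eigenvalue `≠ 1` (`X^p - 1` is separable), and the commuting operators `ρ a` have a common
eigenvector `w = v1 + i v2` in this eigenspace (finite dimensional space, commuting operators:
induction), with eigenvalues `χ a`, `χ : A →* ℂˣ`. Let `W` be the real span of `v1, v2`; it is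
invariant, and `ker χ` acts trivially on it. If `dim W = 1` then `χ` is real, so its values are
`±1` (`A` is finite) and `χ g0 = χ(h)^2 = 1`, a contradiction; so `dim W = 2`. Let
`Ω1 = Ω ∩ ker χ`; it has index `≤ p` in `Ω` since `χ(Ω)` consists of `p`-th roots of unity. By
induction applied to `V / W` and `Ω1` there is `Ω' ≤ Ω1` acting trivially on `V / W` with
`|Ω1| ≤ |Ω'| p^((dim V - 2)/2)`; each `g ∈ Ω'` acts trivially on `W` and on `V / W` and has finite
order, so `ρ g = 1` (`(ρ g - 1)^2 = 0` and `(ρ g)^p = 1` give `p (ρ g - 1) = 0`). -/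
def SLin : Prop :=
  ∀ (p : ℕ), p.Prime → ∀ (A : Type) [CommGroup A] [Finite A] (V : Type) [AddCommGroup V]
    [Module ℝ V] [FiniteDimensional ℝ V] (ρ : A →* (V →ₗ[ℝ] V)) (Ω : Subgroup A),
    (∀ g ∈ Ω, g ^ p = 1) → (∀ g ∈ Ω, ∃ h : A, h ^ 2 = g) →
    ∃ Ω' : Subgroup A, Ω' ≤ Ω ∧ (∀ g ∈ Ω', ρ g = 1) ∧
      Nat.card Ω ≤ Nat.card Ω' * p ^ (Module.finrank ℝ V / 2)

/-- JOB ZI-LOC. The isotropy representation of a finite group of `C^1` diffeomorphisms which fixes
a point of a connected manifold is faithful.

Proof. Similar things are in Pool/Agent/Q24/SLN/Smooth.lean (helper24; `local_fix`, `smooth`).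
Let `φ = extChartAt 𝓘(ℝ, E) x`, `ρ g = fderiv ℝ (φ ∘ (g • ·) ∘ φ.symm) (φ x)` (chain rule near
`φ x`). For `ρ g = 1` put `Ψ y = ∑ k < N, φ (g^k • y)`, `N` the order of `g` (`φ` as a total
function), so `Ψ (g • y) = Ψ y` for all `y`, and `Ψ ∘ φ.symm` is `C^1` at `φ x` with derivative
`N • 1`, so `Ψ` is injective near `x` and `g • y = y` for `y` near `x`. The set of the points `y`
such that `g` is the identity near `y` is open; it is closed since at a point `z` of its closure
`g • z = z` and the derivative of `g` at `z` in a chart is `1` by continuity, and the argument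
applies at `z` (`g` fixes `z`, apply the first part to the group generated by `g`). -/
def SLoc : Prop :=
  ∀ (E M : Type) [NormedAddCommGroup E] [NormedSpace ℝ E] [FiniteDimensional ℝ E]
    [TopologicalSpace M] [T2Space M] [ConnectedSpace M] [ChartedSpace E M]
    [IsManifold 𝓘(ℝ, E) 1 M] (A : Type) [Group A] [Finite A] [MulAction A M],
    (∀ g : A, ContMDiff 𝓘(ℝ, E) 𝓘(ℝ, E) 1 (fun y : M => g • y)) → ∀ x : M,
    (∀ g : A, g • x = x) →
    ∃ ρ : A →* (E →ₗ[ℝ] E), ∀ g : A, ρ g = 1 → ∀ y : M, g • y = y

/-- the order of the roots of unity in the field -/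
def qq (p : ℕ) : ℕ := if p = 2 then 4 else p

/-- JOB ZI-DIA. The finite group `Dg` of diagonal matrices: a normal subgroup of `E_n(R)` which
contains a non-scalar element of order `p` of it contains `E_n(R, 1 - ζ')`.

Proof. Roots of unity in a domain: `μ_q(R)` is finite, `ζ' = ζ` (`p` odd) or `ζ^2 = -1` (`p = 2`)
is a primitive `p`-th root of unity, `μ_p(R)` has exactly `p` elements. `Dg` is finite (the map to
`Fin n → μ_q`) and every element has order dividing `q = p` or `4`. `Ω` = the elements of `Dg` whose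
diagonal entries are `p`-th roots of unity. Every diagonal matrix with unit entries of product `1`
is in `En` (Whitehead: `diag(u, u⁻¹)` in the rows `i, j` is `w(u) w(-1)`,
`w(u) = e_ij(u) e_ji(-u⁻¹) e_ij(u)`; a diagonal matrix of determinant `1` is a product of such), and
elements of `En` have determinant `1`; so `Ω` corresponds to the vectors in `(μ_p)^n` of product `1`
and has `p^(n-1)` elements. Squares: for `p` odd `g = (g^((p+1)/2))^2`; for `p = 2` write
`g = diag((-1)^(a_i))` with `∑ a_i` even, `h = diag(ζ^(a_i'))`, `a_i' = a_i` or (for one `i`)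
`a_i + 2`, with `∑ a_i'` divisible by `4`. Last part: the scalar matrices in `Ω` are `u • 1` with
`u^p = 1`, `u^n = 1`: one if `p ∤ n`, `p` of them if `p ∣ n`; so `Ω'` contains `g = diag(u_i)` with
`u_i ≠ u_j` for some `i, j`. For `c : R` the commutator of `g` and `e_ij(c)` is
`e_ij((u_i u_j⁻¹ - 1) c)`, in `N`; `η = u_i u_j⁻¹` is a primitive `p`-th root of unity, `ζ'` is a
power of `η`, so `η - 1` divides `1 - ζ'` and `e_ij((1 - ζ') b) ∈ N` for all `b`. By commutators with
`e_jl(1)`, `e_ki(1)` (`n ≥ 3`) the same for all pairs of indices, so `EE R n (1 - ζ')` is contained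
in the image of `N` (`N` is normal in `En`). -/
def SDia : Prop :=
  ∀ (R : Type) [CommRing R] [IsDomain R] (p n : ℕ), p.Prime →
    (∃ ζ : R, IsPrimitiveRoot ζ (qq p)) → 3 ≤ n →
    Finite (Dg R (qq p) n) ∧ IsPGroup p (Dg R (qq p) n) ∧
    ∃ Ω : Subgroup (Dg R (qq p) n), (∀ g ∈ Ω, g ^ p = 1) ∧ (∀ g ∈ Ω, ∃ h, h ^ 2 = g) ∧
      Nat.card Ω = p ^ (n - 1) ∧
      ∀ Ω' : Subgroup (Dg R (qq p) n), Ω' ≤ Ω → 1 < Nat.card Ω' →
        (p ∣ n → p < Nat.card Ω') → ∀ N : Subgroup (En R n), N.Normal →
        (∀ g ∈ Ω', g.1 ∈ N) → ∀ ζ' : R, IsPrimitiveRoot ζ' p →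
          ∀ x : En R n, x.1 ∈ EE R n (1 - ζ') → x ∈ N

/-- (helper4) fixed points on triangulated spaces -/
def SEul : Prop :=
  ∀ (p : ℕ) [Fact p.Prime] (A : Type) [Group A] [Finite A] (M : Type) [TopologicalSpace M]
    [MulAction A M], IsPGroup p A → ∀ T : Tri A M, ¬ (p : ℤ) ∣ T.chi →
    ∃ x : M, ∀ g : A, g • x = x

end Q4.ZI
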